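import Pool.Agent.Helper844.DPRM
import Pool.Agent.Run7.h955.OV.Iface

/-!
# Piece LOG of the project OV (MP_1ebeae_al)

Every recursively enumerable set of natural numbers is defined by one finite set of natural numbers
subject to finitely many universally quantified clauses of literals `a i + b j + c k + e ∈ U`.
-/

set_option autoImplicit false

namespace Pool.Agent.Run7.h882.OV.LG

open Pool.Agent.Run7.h955.OV

/-- a literal over sets indexed by `ι` -/
structure GLit (ι : Type) where
  s : ι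
  pos : Bool
  a : ℕ
  b : ℕ
  c : ℕ
  e : ℕ

def GLit.ok {ι : Type} (l : GLit ι) (T : ι → Finset ℕ) (i j k : ℕ) : Prop :=
  l.a * i + l.b * j + l.c * k + l.e ∈ T l.s ↔ l.pos = true

/-- the finite sets `T` satisfy the universal closure of all clauses of `C` -/
def GS {ι : Type} (C : List (List (GLit ι))) (T : ι → Finset ℕ) : Prop :=
  ∀ cl ∈ C, ∀ i j k : ℕ, ∃ l ∈ cl, l.ok T i j k

theorem ok_true {ι : Type} (s : ι) (a b c e : ℕ) (T : ι → Finset ℕ) (i j k : ℕ) :
    (GLit.mk s true a b c e).ok T i j k ↔ a * i + b * j + c * k + e ∈ T s := by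
  simp [GLit.ok]

theorem ok_false {ι : Type} (s : ι) (a b c e : ℕ) (T : ι → Finset ℕ) (i j k : ℕ) :
    (GLit.mk s false a b c e).ok T i j k ↔ a * i + b * j + c * k + e ∉ T s := by
  simp [GLit.ok]

theorem GS_nil {ι : Type} (T : ι → Finset ℕ) : GS [] T := by
  intro cl hcl
  simp at hcl

theorem GS_cons {ι : Type} (cl : List (GLit ι)) (C : List (List (GLit ι))) (T : ι → Finset ℕ) :
    GS (cl :: C) T ↔ (∀ i j k : ℕ, ∃ l ∈ cl, l.ok T i j k) ∧ GS C T := by
  simp [GS]

theorem GS_append {ι : Type} (C D : List (List (GLit ι))) (T : ι → Finset ℕ) :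
    GS (C ++ D) T ↔ GS C T ∧ GS D T := by
  constructor
  · intro h
    exact ⟨fun cl hcl => h cl (List.mem_append_left _ hcl),
      fun cl hcl => h cl (List.mem_append_right _ hcl)⟩
  · rintro ⟨h1, h2⟩ cl hcl
    rcases List.mem_append.1 hcl with h | h
    · exact h1 cl h
    · exact h2 cl h

def GLit.ren {ι κ : Type} (f : ι → κ) (l : GLit ι) : GLit κ := ⟨f l.s, l.pos, l.a, l.b, l.c, l.e⟩

def ren {ι κ : Type} (f : ι → κ) (C : List (List (GLit ι))) : List (List (GLit κ)) :=
  C.map (List.map (GLit.ren f))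

theorem GS_ren {ι κ : Type} (f : ι → κ) (C : List (List (GLit ι))) (T : κ → Finset ℕ) :
    GS (ren f C) T ↔ GS C (T ∘ f) := by
  constructor
  · intro h cl hcl i j k
    obtain ⟨l, hl, hok⟩ := h _ (List.mem_map_of_mem hcl) i j k
    obtain ⟨l', hl', rfl⟩ := List.mem_map.1 hl
    exact ⟨l', hl', hok⟩
  · intro h cl hcl i j k
    obtain ⟨cl', hcl', rfl⟩ := List.mem_map.1 hcl
    obtain ⟨l, hl, hok⟩ := h _ hcl' i j k
    exact ⟨_, List.mem_map_of_mem hl, hok⟩

/-- relations of natural numbers definable by finite sets and universal clauses -/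
def UD {α : Type} (P : (α → ℕ) → Prop) : Prop :=
  ∃ (κ : Type) (_ : Fintype κ) (C : List (List (GLit (α ⊕ κ)))),
    ∀ v : α → ℕ, P v ↔ ∃ T : κ → Finset ℕ, GS C (Sum.elim (fun a => {v a}) T)

theorem UD.congr {α : Type} {P Q : (α → ℕ) → Prop} (hP : UD P) (h : ∀ v, Q v ↔ P v) : UD Q := by
  obtain ⟨κ, i, C, hC⟩ := hP
  exact ⟨κ, i, C, fun v => (h v).trans (hC v)⟩

theorem UD.and {α : Type} {P Q : (α → ℕ) → Prop} (hP : UD P) (hQ : UD Q) :
    UD (fun v => P v ∧ Q v) := by
  obtain ⟨κ, _, C, hC⟩ := hP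
  obtain ⟨μ, _, D, hD⟩ := hQ
  refine ⟨κ ⊕ μ, inferInstance, ren (Sum.map id Sum.inl) C ++ ren (Sum.map id Sum.inr) D, ?_⟩
  intro v
  refine (and_congr (hC v) (hD v)).trans ?_
  have e1 : ∀ T : κ ⊕ μ → Finset ℕ,
      (Sum.elim (fun a => {v a}) T : α ⊕ (κ ⊕ μ) → Finset ℕ) ∘ Sum.map id Sum.inl =
        Sum.elim (fun a => {v a}) (T ∘ Sum.inl) := by
    intro T; funext i; rcases i with i | i <;> rfl
  have e2 : ∀ T : κ ⊕ μ → Finset ℕ,
      (Sum.elim (fun a => {v a}) T : α ⊕ (κ ⊕ μ) → Finset ℕ) ∘ Sum.map id Sum.inr =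
        Sum.elim (fun a => {v a}) (T ∘ Sum.inr) := by
    intro T; funext i; rcases i with i | i <;> rfl
  simp only [GS_append, GS_ren, e1, e2]
  constructor
  · rintro ⟨⟨T, hT⟩, ⟨T', hT'⟩⟩
    exact ⟨Sum.elim T T', hT, hT'⟩
  · rintro ⟨T, hT, hT'⟩
    exact ⟨⟨_, hT⟩, ⟨_, hT'⟩⟩

theorem UD.comp {α β : Type} {P : (α → ℕ) → Prop} (hP : UD P) (f : α → β) :
    UD (fun v : β → ℕ => P (fun i => v (f i))) := by
  obtain ⟨κ, _, C, hC⟩ := hP
  refine ⟨κ, inferInstance, ren (Sum.map f id) C, ?_⟩
  intro v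
  refine (hC _).trans ?_
  simp only [GS_ren]
  have e : ∀ T : κ → Finset ℕ,
      (Sum.elim (fun a => {v a}) T : β ⊕ κ → Finset ℕ) ∘ Sum.map f id =
        Sum.elim (fun a => {v (f a)}) T := by
    intro T; funext i; rcases i with i | i <;> rfl
  simp only [e]

/-- clauses saying that the set number `s` is a singleton, `g` a dummy set -/
def sing {ι : Type} (s g : ι) : List (List (GLit ι)) :=
  [[⟨s, false, 1, 0, 0, 0⟩, ⟨s, false, 1, 1, 0, 1⟩],
   [⟨g, true, 0, 0, 0, 0⟩],
   [⟨g, false, 1, 0, 0, 0⟩, ⟨s, true, 1, 0, 0, 0⟩, ⟨g, true, 1, 0, 0, 1⟩]]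

theorem GS_sing {ι : Type} (s g : ι) (T : ι → Finset ℕ) :
    GS (sing s g) T ↔ (∀ i j, i ∉ T s ∨ i + j + 1 ∉ T s) ∧ 0 ∈ T g ∧
      (∀ i, i ∉ T g ∨ i ∈ T s ∨ i + 1 ∈ T g) := by
  simp only [sing, GS_cons, GS_nil, List.mem_cons, List.not_mem_nil, or_false, exists_eq_or_imp,
    exists_eq_left, ok_true, ok_false, one_mul, zero_mul, add_zero, zero_add, and_true,
    forall_const]

theorem singleton_of {S G : Finset ℕ} (h1 : ∀ i j, i ∉ S ∨ i + j + 1 ∉ S) (h2 : 0 ∈ G)
    (h3 : ∀ i, i ∉ G ∨ i ∈ S ∨ i + 1 ∈ G) : ∃ t, S = {t} := by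
  have hne : S.Nonempty := by
    by_contra hcon
    rw [Finset.not_nonempty_iff_eq_empty] at hcon
    subst hcon
    have hall : ∀ i, i ∈ G := by
      intro i
      induction i with
      | zero => exact h2
      | succ i ih =>
        rcases h3 i with h | h | h
        · exact absurd ih h
        · simp at h
        · exact h
    exact Set.infinite_univ (α := ℕ) (G.finite_toSet.subset (fun i _ => hall i))
  obtain ⟨t, ht⟩ := hne
  refine ⟨t, ?_⟩
  ext m
  rw [Finset.mem_singleton]
  constructor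
  · intro hm
    rcases lt_trichotomy m t with h | h | h
    · have := h1 m (t - m - 1)
      rw [show m + (t - m - 1) + 1 = t by omega] at this
      tauto
    · exact h
    · have := h1 t (m - t - 1)
      rw [show t + (m - t - 1) + 1 = m by omega] at this
      tauto
  · rintro rfl
    exact ht

theorem GS_flat {ι κ : Type} (F : κ → List (List (GLit ι))) (L : List κ) (T : ι → Finset ℕ) :
    GS (L.flatMap F) T ↔ ∀ k ∈ L, GS (F k) T := by
  constructor
  · intro h k hk cl hcl
    exact h cl (List.mem_flatMap.2 ⟨k, hk, hcl⟩)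
  · intro h cl hcl
    obtain ⟨k, hk, hcl'⟩ := List.mem_flatMap.1 hcl
    exact h k hk cl hcl'

theorem UD.exF {α κ : Type} [Fintype κ] {P : (κ → ℕ) → (α → ℕ) → Prop}
    (hP : UD (fun c : κ ⊕ α → ℕ => P (fun k => c (Sum.inl k)) (fun i => c (Sum.inr i)))) :
    UD (fun v : α → ℕ => ∃ t : κ → ℕ, P t v) := by
  obtain ⟨μ, _, C, hC⟩ := hP
  let f : (κ ⊕ α) ⊕ μ → α ⊕ ((κ ⊕ κ) ⊕ μ) := fun z => match z with
    | Sum.inl (Sum.inl k) => Sum.inr (Sum.inl (Sum.inl k))
    | Sum.inl (Sum.inr i) => Sum.inl i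
    | Sum.inr m => Sum.inr (Sum.inr m)
  refine ⟨(κ ⊕ κ) ⊕ μ, inferInstance, ren f C ++ (Finset.univ : Finset κ).toList.flatMap
    (fun k => sing (Sum.inr (Sum.inl (Sum.inl k))) (Sum.inr (Sum.inl (Sum.inr k)))), ?_⟩
  intro v
  have key : ∀ (t : κ → ℕ) (G : κ → Finset ℕ) (m : μ → Finset ℕ),
      (Sum.elim (fun a => {v a}) (Sum.elim (Sum.elim (fun k => {t k}) G) m) :
        α ⊕ ((κ ⊕ κ) ⊕ μ) → Finset ℕ) ∘ f = Sum.elim (fun a => {Sum.elim t v a}) m := by
    intro t G m
    funext z
    rcases z with (z | z) | z <;> rfl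
  simp only [GS_append, GS_ren, GS_flat, GS_sing, Finset.mem_toList, Finset.mem_univ,
    true_implies, Sum.elim_inr, Sum.elim_inl]
  constructor
  · rintro ⟨t, ht⟩
    obtain ⟨m, hm⟩ := (hC (Sum.elim t v)).1 ht
    refine ⟨Sum.elim (Sum.elim (fun k => {t k}) (fun k => Finset.range (t k + 1))) m, ?_, ?_⟩
    · rw [key]
      exact hm
    · intro k
      simp only [Sum.elim_inr, Sum.elim_inl, Finset.mem_singleton, Finset.mem_range]
      refine ⟨fun i j => by omega, by omega, fun i => by omega⟩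
  · rintro ⟨T, hT, hs⟩
    have hsing : ∀ k, ∃ t, T (Sum.inl (Sum.inl k)) = {t} := fun k =>
      singleton_of (hs k).1 (hs k).2.1 (hs k).2.2
    choose t ht using hsing
    have e : T = Sum.elim (Sum.elim (fun k => {t k}) (fun k => T (Sum.inl (Sum.inr k))))
        (fun m => T (Sum.inr m)) := by
      funext z
      rcases z with (z | z) | z
      · exact ht z
      · rfl
      · rfl
    rw [e, key] at hT
    exact ⟨t, (hC (Sum.elim t v)).2 ⟨_, hT⟩⟩

/-- relations defined directly by clauses -/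
theorem UD.direct {α κ : Type} [Fintype κ] (C : List (List (GLit (α ⊕ κ)))) :
    UD (fun v : α → ℕ => ∃ T : κ → Finset ℕ, GS C (Sum.elim (fun a => {v a}) T)) :=
  ⟨κ, inferInstance, C, fun _ => Iff.rfl⟩

theorem UD.add {α : Type} (x y z : α) : UD (fun v : α → ℕ => v x + v y = v z) := by
  refine (UD.direct (κ := Empty) [[⟨Sum.inl x, false, 1, 0, 0, 0⟩, ⟨Sum.inl y, false, 0, 1, 0, 0⟩,
    ⟨Sum.inl z, true, 1, 1, 0, 0⟩]]).congr ?_
  intro v
  simp only [GS_cons, GS_nil, List.mem_cons, List.not_mem_nil, or_false, exists_eq_or_imp,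
    exists_eq_left, ok_true, ok_false, one_mul, zero_mul, add_zero, zero_add, and_true,
    forall_const, Sum.elim_inl, Finset.mem_singleton]
  constructor
  · intro h
    refine ⟨Empty.elim, fun i j => ?_⟩
    omega
  · rintro ⟨_, h⟩
    have := h (v x) (v y)
    tauto

theorem UD.const {α : Type} (x : α) (c : ℕ) : UD (fun v : α → ℕ => v x = c) := by
  refine (UD.direct (κ := Empty) [[⟨Sum.inl x, true, 0, 0, 0, c⟩]]).congr ?_
  intro v
  simp only [GS_cons, GS_nil, List.mem_cons, List.not_mem_nil, or_false, 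
    exists_eq_left, ok_true, zero_mul, zero_add, and_true,
    forall_const, Sum.elim_inl, Finset.mem_singleton]
  constructor
  · intro h
    exact ⟨Empty.elim, h.symm⟩
  · rintro ⟨_, h⟩
    exact h.symm

theorem UD.eq {α : Type} (x y : α) : UD (fun v : α → ℕ => v x = v y) := by
  refine (UD.direct (κ := Empty) [[⟨Sum.inl x, false, 1, 0, 0, 0⟩,
    ⟨Sum.inl y, true, 1, 0, 0, 0⟩]]).congr ?_
  intro v
  simp only [GS_cons, GS_nil, List.mem_cons, List.not_mem_nil, or_false, exists_eq_or_imp,
    exists_eq_left, ok_true, ok_false, one_mul, zero_mul, add_zero, and_true,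
    forall_const, Sum.elim_inl, Finset.mem_singleton]
  constructor
  · intro h
    refine ⟨Empty.elim, fun i => ?_⟩
    omega
  · rintro ⟨_, h⟩
    have := h (v x)
    tauto

/-! ### the function `(a + 1) (a + 2)` -/

theorem dvd_of_mem {T : Finset ℕ} {d : ℕ} (hd : 1 ≤ d) (h1 : ∀ i, i + d ∈ T → i ∈ T)
    (h2 : ∀ i, 1 ≤ i → i < d → i ∉ T) : ∀ t, t ∈ T → d ∣ t := by
  intro t
  induction t using Nat.strong_induction_on with
  | _ t ih =>
    intro ht
    by_cases h : d ≤ t
    · have h3 : (t - d) + d ∈ T := by rw [Nat.sub_add_cancel h]; exact ht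
      have h4 := ih (t - d) (by omega) (h1 _ h3)
      have h5 : d ∣ (t - d) + d := dvd_add h4 dvd_rfl
      rwa [Nat.sub_add_cancel h] at h5
    · rcases Nat.eq_zero_or_pos t with h0 | h0
      · rw [h0]; exact dvd_zero _
      · exact absurd ht (h2 t h0 (by omega))

theorem mem_of_dvd {T : Finset ℕ} {d z : ℕ} (h0 : 0 ∈ T) (h1 : ∀ i, i ∈ T → i + d ≤ z → i + d ∈ T) :
    ∀ c, c * d ≤ z → c * d ∈ T := by
  intro c
  induction c with
  | zero => intro _; rw [zero_mul]; exact h0
  | succ c ih =>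
    intro h
    rw [Nat.succ_mul] at h ⊢
    exact h1 _ (ih (by omega)) h

theorem UD.F {α : Type} (a z : α) : UD (fun v : α → ℕ => v z = (v a + 1) * (v a + 2)) := by
  refine (UD.direct (κ := Bool) [
    [⟨Sum.inr false, true, 0, 0, 0, 0⟩],
    [⟨Sum.inr false, false, 1, 0, 0, 0⟩, ⟨Sum.inl a, false, 0, 1, 0, 0⟩,
      ⟨Sum.inl z, false, 1, 1, 1, 1⟩, ⟨Sum.inr false, true, 1, 1, 0, 1⟩],
    [⟨Sum.inr false, false, 1, 1, 0, 1⟩, ⟨Sum.inl a, false, 0, 1, 0, 0⟩,
      ⟨Sum.inr false, true, 1, 0, 0, 0⟩],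
    [⟨Sum.inr false, false, 1, 0, 0, 1⟩, ⟨Sum.inl a, false, 1, 1, 0, 1⟩],
    [⟨Sum.inr true, true, 0, 0, 0, 0⟩],
    [⟨Sum.inr true, false, 1, 0, 0, 0⟩, ⟨Sum.inl a, false, 0, 1, 0, 0⟩,
      ⟨Sum.inl z, false, 1, 1, 1, 2⟩, ⟨Sum.inr true, true, 1, 1, 0, 2⟩],
    [⟨Sum.inr true, false, 1, 1, 0, 2⟩, ⟨Sum.inl a, false, 0, 1, 0, 0⟩,
      ⟨Sum.inr true, true, 1, 0, 0, 0⟩],
    [⟨Sum.inr true, false, 1, 0, 0, 1⟩, ⟨Sum.inl a, false, 1, 1, 0, 0⟩],
    [⟨Sum.inl z, false, 1, 0, 0, 0⟩, ⟨Sum.inr false, true, 1, 0, 0, 0⟩],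
    [⟨Sum.inl z, false, 1, 0, 0, 0⟩, ⟨Sum.inr true, true, 1, 0, 0, 0⟩],
    [⟨Sum.inl z, false, 0, 0, 0, 0⟩],
    [⟨Sum.inr false, false, 1, 0, 0, 1⟩, ⟨Sum.inr true, false, 1, 0, 0, 1⟩,
      ⟨Sum.inl z, false, 1, 1, 0, 2⟩]]).congr ?_
  intro v
  simp only [GS_cons, GS_nil, List.mem_cons, List.not_mem_nil, or_false, exists_eq_or_imp,
    exists_eq_left, ok_true, ok_false, one_mul, zero_mul, add_zero, zero_add, and_true,
    forall_const, Sum.elim_inl, Sum.elim_inr, Finset.mem_singleton]
  generalize v a = a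
  generalize v z = z
  have hco : Nat.Coprime (a + 1) (a + 2) := by
    rw [show a + 2 = (a + 1) + 1 by ring]
    exact Nat.coprime_self_add_right.2 (Nat.coprime_one_right _)
  constructor
  · intro hz
    have hz0 : 0 < z := by rw [hz]; positivity
    let M : ℕ → Finset ℕ := fun d => (Finset.range (z + 1)).filter (fun m => d ∣ m)
    have hM : ∀ d m, m ∈ M d ↔ m ≤ z ∧ d ∣ m := by
      intro d m
      simp only [M, Finset.mem_filter, Finset.mem_range]
      rw [Nat.lt_succ_iff]
    refine ⟨fun b => if b then M (a + 2) else M (a + 1), ?_⟩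
    simp only [Bool.false_eq_true, if_false, if_true, hM]
    refine ⟨⟨by omega, dvd_zero _⟩, ?_, ?_, ?_, ⟨by omega, dvd_zero _⟩, ?_, ?_, ?_, ?_, ?_, ?_, ?_⟩
    · intro i j k
      by_cases hj : j = a
      · by_cases hk : i + j + k + 1 = z
        · by_cases hi : i ≤ z ∧ (a + 1) ∣ i
          · refine Or.inr (Or.inr (Or.inr ⟨by omega, ?_⟩))
            rw [hj, add_assoc]
            exact dvd_add hi.2 dvd_rfl
          · exact Or.inl hi
        · exact Or.inr (Or.inr (Or.inl hk))
      · exact Or.inr (Or.inl hj)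
    · intro i j
      by_cases hj : j = a
      · by_cases hi : i + j + 1 ≤ z ∧ (a + 1) ∣ i + j + 1
        · refine Or.inr (Or.inr ⟨by omega, ?_⟩)
          have := hi.2
          rw [hj, add_assoc] at this
          exact (Nat.dvd_add_left dvd_rfl).1 this
        · exact Or.inl hi
      · exact Or.inr (Or.inl hj)
    · intro i j
      by_cases hj : i + j + 1 = a
      · left
        rintro ⟨_, h⟩
        have := Nat.le_of_dvd (by omega) h
        omega
      · exact Or.inr hj
    · intro i j k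
      by_cases hj : j = a
      · by_cases hk : i + j + k + 2 = z
        · by_cases hi : i ≤ z ∧ (a + 2) ∣ i
          · refine Or.inr (Or.inr (Or.inr ⟨by omega, ?_⟩))
            rw [hj, add_assoc]
            exact dvd_add hi.2 dvd_rfl
          · exact Or.inl hi
        · exact Or.inr (Or.inr (Or.inl hk))
      · exact Or.inr (Or.inl hj)
    · intro i j
      by_cases hj : j = a
      · by_cases hi : i + j + 2 ≤ z ∧ (a + 2) ∣ i + j + 2
        · refine Or.inr (Or.inr ⟨by omega, ?_⟩)
          have := hi.2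
          rw [hj, add_assoc] at this
          exact (Nat.dvd_add_left dvd_rfl).1 this
        · exact Or.inl hi
      · exact Or.inr (Or.inl hj)
    · intro i j
      by_cases hj : i + j = a
      · left
        rintro ⟨_, h⟩
        have := Nat.le_of_dvd (by omega) h
        omega
      · exact Or.inr hj
    · intro i
      by_cases hi : i = z
      · right
        rw [hi]
        exact ⟨le_rfl, hz ▸ dvd_mul_right _ _⟩
      · exact Or.inl hi
    · intro i
      by_cases hi : i = z
      · right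
        rw [hi]
        exact ⟨le_rfl, hz ▸ dvd_mul_left _ _⟩
      · exact Or.inl hi
    · omega
    · intro i j
      by_cases h1 : i + 1 ≤ z ∧ (a + 1) ∣ i + 1
      · by_cases h2 : i + 1 ≤ z ∧ (a + 2) ∣ i + 1
        · right; right
          have h3 := hco.mul_dvd_of_dvd_of_dvd h1.2 h2.2
          rw [← hz] at h3
          have := Nat.le_of_dvd (by omega) h3
          omega
        · exact Or.inr (Or.inl h2)
      · exact Or.inl h1
  · rintro ⟨T, c1, c2, c3, c4, d1, d2, d3, d4, e1, e2, e3, e4⟩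
    have hT : ∀ t, t ∈ T false → (a + 1) ∣ t := by
      refine dvd_of_mem (by omega) ?_ ?_
      · intro i hi
        have := c3 i a
        rw [add_assoc] at this
        tauto
      · intro i h1 h2
        have := c4 (i - 1) (a - i)
        rw [show i - 1 + 1 = i by omega, show i - 1 + (a - i) + 1 = a by omega] at this
        tauto
    have hT' : ∀ t, t ∈ T true → (a + 2) ∣ t := by
      refine dvd_of_mem (by omega) ?_ ?_
      · intro i hi
        have := d3 i a
        rw [add_assoc] at this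
        tauto
      · intro i h1 h2
        have := d4 (i - 1) (a - (i - 1))
        rw [show i - 1 + 1 = i by omega, show i - 1 + (a - (i - 1)) = a by omega] at this
        tauto
    have hzT : z ∈ T false := by
      have := e1 z
      tauto
    have hzT' : z ∈ T true := by
      have := e2 z
      tauto
    have hdv : (a + 1) * (a + 2) ∣ z := hco.mul_dvd_of_dvd_of_dvd (hT z hzT) (hT' z hzT')
    have hz0 : 0 < z := Nat.pos_of_ne_zero (fun h => e3 h.symm)
    have hle := Nat.le_of_dvd hz0 hdv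
    by_contra hne
    have hlt : (a + 1) * (a + 2) < z := lt_of_le_of_ne hle (Ne.symm hne)
    have m1 : (a + 1) * (a + 2) ∈ T false := by
      rw [mul_comm]
      refine mem_of_dvd (z := z) c1 ?_ (a + 2) (by rw [mul_comm]; exact hle)
      intro i hi hiz
      have := c2 i a (z - (i + (a + 1)))
      rw [show i + a + (z - (i + (a + 1))) + 1 = z by omega, add_assoc] at this
      tauto
    have m2 : (a + 1) * (a + 2) ∈ T true := by
      refine mem_of_dvd (z := z) d1 ?_ (a + 1) hle
      intro i hi hiz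
      have := d2 i a (z - (i + (a + 2)))
      rw [show i + a + (z - (i + (a + 2))) + 2 = z by omega, add_assoc] at this
      tauto
    have hpos : 1 ≤ (a + 1) * (a + 2) := Nat.succ_le_of_lt (by positivity)
    have := e4 ((a + 1) * (a + 2) - 1) (z - (a + 1) * (a + 2) - 1)
    rw [Nat.sub_add_cancel hpos,
      show (a + 1) * (a + 2) - 1 + (z - (a + 1) * (a + 2) - 1) + 2 = z by omega] at this
    tauto

/-! ### functions with a definable graph -/

def UF {α : Type} (f : (α → ℕ) → ℕ) : Prop :=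
  UD (fun w : Unit ⊕ α → ℕ => w (Sum.inl ()) = f (fun i => w (Sum.inr i)))

theorem UF.proj {α : Type} (i : α) : UF (fun v : α → ℕ => v i) :=
  UD.eq (Sum.inl ()) (Sum.inr i)

theorem UF.const {α : Type} (c : ℕ) : UF (fun _ : α → ℕ => c) :=
  UD.const (Sum.inl ()) c

theorem UF.add {α : Type} {f g : (α → ℕ) → ℕ} (hf : UF f) (hg : UF g) :
    UF (fun v => f v + g v) := by
  refine (UD.exF (κ := Bool) (P := fun (t : Bool → ℕ) (w : Unit ⊕ α → ℕ) =>
    (t false = f (fun i => w (Sum.inr i)) ∧ t true = g (fun i => w (Sum.inr i))) ∧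
      t false + t true = w (Sum.inl ())) ?_).congr ?_
  · refine UD.and (UD.and ?_ ?_) ?_
    · exact hf.comp (fun z : Unit ⊕ α => match z with
        | Sum.inl _ => (Sum.inl false : Bool ⊕ (Unit ⊕ α))
        | Sum.inr i => Sum.inr (Sum.inr i))
    · exact hg.comp (fun z : Unit ⊕ α => match z with
        | Sum.inl _ => (Sum.inl true : Bool ⊕ (Unit ⊕ α))
        | Sum.inr i => Sum.inr (Sum.inr i))
    · exact UD.add _ _ _
  · intro w
    constructor
    · intro h
      exact ⟨fun b => if b then g (fun i => w (Sum.inr i)) else f (fun i => w (Sum.inr i)),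
        ⟨rfl, rfl⟩, by simp [h]⟩
    · rintro ⟨t, ⟨h1, h2⟩, h3⟩
      rw [← h3, h1, h2]

theorem UD.eqF {α : Type} {f g : (α → ℕ) → ℕ} (hf : UF f) (hg : UF g) :
    UD (fun v => f v = g v) := by
  refine (UD.exF (κ := Unit) (P := fun (t : Unit → ℕ) (w : α → ℕ) =>
    t () = f w ∧ t () = g w) (UD.and hf hg)).congr ?_
  intro v
  constructor
  · intro h
    exact ⟨fun _ => f v, rfl, h⟩
  · rintro ⟨t, h1, h2⟩
    rw [← h1, h2]

/-- linear equations between sums of variables -/
theorem UD.lin {α : Type} (l l' : List α) (c c' : ℕ) :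
    UD (fun v : α → ℕ => (l.map v).sum + c = (l'.map v).sum + c') := by
  have hs : ∀ l : List α, UF (fun v : α → ℕ => (l.map v).sum) := by
    intro l
    induction l with
    | nil => exact UF.const 0
    | cons x l ih =>
      have h := (UF.proj x).add ih
      simpa only [List.map_cons, List.sum_cons] using h
  exact UD.eqF ((hs l).add (UF.const c)) ((hs l').add (UF.const c'))

theorem UD.mul {α : Type} (i j k : α) : UD (fun v : α → ℕ => v i * v j = v k) := by
  refine (UD.exF (κ := Fin 4) (P := fun (t : Fin 4 → ℕ) (v : α → ℕ) =>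
    ((t 0 = (v i + 1) * (v i + 2) ∧ t 1 = (v j + 1) * (v j + 2)) ∧
      (v i + v j = t 2 ∧ t 3 = (t 2 + 1) * (t 2 + 2))) ∧
      t 3 + 2 = t 0 + t 1 + v k + v k) ?_).congr ?_
  · refine UD.and (UD.and (UD.and ?_ ?_) (UD.and ?_ ?_)) ?_
    · exact UD.F (Sum.inr i) (Sum.inl 0)
    · exact UD.F (Sum.inr j) (Sum.inl 1)
    · exact UD.add (Sum.inr i) (Sum.inr j) (Sum.inl 2)
    · exact UD.F (Sum.inl 2) (Sum.inl 3)
    · refine (UD.lin [Sum.inl 3] [Sum.inl 0, Sum.inl 1, Sum.inr k, Sum.inr k] 2 0).congr ?_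
      intro v
      simp only [List.map_cons, List.map_nil, List.sum_cons, List.sum_nil]
      omega
  · intro v
    constructor
    · intro h
      refine ⟨![(v i + 1) * (v i + 2), (v j + 1) * (v j + 2), v i + v j,
        (v i + v j + 1) * (v i + v j + 2)], ⟨⟨rfl, rfl⟩, rfl, rfl⟩, ?_⟩
      change (v i + v j + 1) * (v i + v j + 2) + 2 =
        (v i + 1) * (v i + 2) + (v j + 1) * (v j + 2) + v k + v k
      rw [← h]
      ring
    · rintro ⟨t, ⟨⟨h0, h1⟩, h2, h3⟩, h4⟩
      rw [h3, h0, h1, ← h2] at h4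
      have h5 : (v i + v j + 1) * (v i + v j + 2) + 2 =
        (v i + 1) * (v i + 2) + (v j + 1) * (v j + 2) + v i * v j + v i * v j := by ring
      omega

/-- the graph of an integral polynomial: `p v + t = s` -/
theorem UD.poly {γ : Type} (p : Poly γ) :
    UD (fun v : γ ⊕ Bool → ℕ =>
      p (fun i => v (Sum.inl i)) + (v (Sum.inr false) : ℤ) = (v (Sum.inr true) : ℤ)) := by
  refine Poly.induction (C := fun p => UD (fun v : γ ⊕ Bool → ℕ =>
      p (fun i => v (Sum.inl i)) + (v (Sum.inr false) : ℤ) = (v (Sum.inr true) : ℤ)))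
      ?_ ?_ ?_ ?_ p
  · intro i
    refine (UD.lin [Sum.inl i, Sum.inr false] [Sum.inr true] 0 0).congr ?_
    intro v
    simp only [Poly.proj_apply, List.map_cons, List.map_nil, List.sum_cons, List.sum_nil]
    omega
  · intro n
    refine (UD.lin [Sum.inr false] [Sum.inr true] n.toNat (-n).toNat).congr ?_
    intro v
    simp only [Poly.const_apply, List.map_cons, List.map_nil, List.sum_cons, List.sum_nil]
    omega
  · intro f g hf hg
    -- variables: s1 t1 s2 t2 indexed by `Bool × Bool`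
    refine (UD.exF (κ := Bool × Bool) (P := fun (t : Bool × Bool → ℕ) (v : γ ⊕ Bool → ℕ) =>
      ((f (fun i => v (Sum.inl i)) + (t (true, false) : ℤ) = (t (true, true) : ℤ)) ∧
        (g (fun i => v (Sum.inl i)) + (t (false, false) : ℤ) = (t (false, true) : ℤ))) ∧
        t (true, true) + t (false, false) + v (Sum.inr false) =
          v (Sum.inr true) + t (true, false) + t (false, true)) ?_).congr ?_
    · refine UD.and (UD.and ?_ ?_) ?_
      · exact hf.comp (fun z : γ ⊕ Bool => match z with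
          | Sum.inl i => (Sum.inr (Sum.inl i) : (Bool × Bool) ⊕ (γ ⊕ Bool))
          | Sum.inr b => Sum.inl (true, b))
      · exact hg.comp (fun z : γ ⊕ Bool => match z with
          | Sum.inl i => (Sum.inr (Sum.inl i) : (Bool × Bool) ⊕ (γ ⊕ Bool))
          | Sum.inr b => Sum.inl (false, b))
      · refine (UD.lin [Sum.inl (true, true), Sum.inl (false, false), Sum.inr (Sum.inr false)]
          [Sum.inr (Sum.inr true), Sum.inl (true, false), Sum.inl (false, true)] 0 0).congr ?_
        intro v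
        simp only [List.map_cons, List.map_nil, List.sum_cons, List.sum_nil]
        omega
    · intro v
      rw [Poly.sub_apply]
      constructor
      · intro h
        refine ⟨fun z => match z with
          | (true, true) => (f (fun i => v (Sum.inl i))).toNat
          | (true, false) => (-(f (fun i => v (Sum.inl i)))).toNat
          | (false, true) => (g (fun i => v (Sum.inl i))).toNat
          | (false, false) => (-(g (fun i => v (Sum.inl i)))).toNat, ⟨?_, ?_⟩, ?_⟩
        · simp only; omega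
        · simp only; omega
        · simp only; omega
      · rintro ⟨t, ⟨h1, h2⟩, h3⟩
        omega
  · intro f g hf hg
    refine (UD.exF (κ := (Bool × Bool) ⊕ (Bool × Bool))
      (P := fun (t : (Bool × Bool) ⊕ (Bool × Bool) → ℕ) (v : γ ⊕ Bool → ℕ) =>
      (((f (fun i => v (Sum.inl i)) + (t (Sum.inl (true, false)) : ℤ) = (t (Sum.inl (true, true)) : ℤ)) ∧
        (g (fun i => v (Sum.inl i)) + (t (Sum.inl (false, false)) : ℤ) = (t (Sum.inl (false, true)) : ℤ))) ∧
        ((t (Sum.inl (true, true)) * t (Sum.inl (false, true)) = t (Sum.inr (true, true)) ∧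
          t (Sum.inl (true, true)) * t (Sum.inl (false, false)) = t (Sum.inr (true, false))) ∧
          (t (Sum.inl (true, false)) * t (Sum.inl (false, true)) = t (Sum.inr (false, true)) ∧
          t (Sum.inl (true, false)) * t (Sum.inl (false, false)) = t (Sum.inr (false, false))))) ∧
        t (Sum.inr (true, true)) + t (Sum.inr (false, false)) + v (Sum.inr false) =
          v (Sum.inr true) + t (Sum.inr (true, false)) + t (Sum.inr (false, true))) ?_).congr ?_
    · refine UD.and (UD.and (UD.and ?_ ?_) (UD.and (UD.and ?_ ?_) (UD.and ?_ ?_))) ?_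
      · exact hf.comp (fun z : γ ⊕ Bool => match z with
          | Sum.inl i => (Sum.inr (Sum.inl i) : ((Bool × Bool) ⊕ (Bool × Bool)) ⊕ (γ ⊕ Bool))
          | Sum.inr b => Sum.inl (Sum.inl (true, b)))
      · exact hg.comp (fun z : γ ⊕ Bool => match z with
          | Sum.inl i => (Sum.inr (Sum.inl i) : ((Bool × Bool) ⊕ (Bool × Bool)) ⊕ (γ ⊕ Bool))
          | Sum.inr b => Sum.inl (Sum.inl (false, b)))
      · exact UD.mul (Sum.inl (Sum.inl (true, true))) (Sum.inl (Sum.inl (false, true)))
          (Sum.inl (Sum.inr (true, true)))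
      · exact UD.mul (Sum.inl (Sum.inl (true, true))) (Sum.inl (Sum.inl (false, false)))
          (Sum.inl (Sum.inr (true, false)))
      · exact UD.mul (Sum.inl (Sum.inl (true, false))) (Sum.inl (Sum.inl (false, true)))
          (Sum.inl (Sum.inr (false, true)))
      · exact UD.mul (Sum.inl (Sum.inl (true, false))) (Sum.inl (Sum.inl (false, false)))
          (Sum.inl (Sum.inr (false, false)))
      · refine (UD.lin [Sum.inl (Sum.inr (true, true)), Sum.inl (Sum.inr (false, false)),
          Sum.inr (Sum.inr false)]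
          [Sum.inr (Sum.inr true), Sum.inl (Sum.inr (true, false)),
            Sum.inl (Sum.inr (false, true))] 0 0).congr ?_
        intro v
        simp only [List.map_cons, List.map_nil, List.sum_cons, List.sum_nil]
        omega
    · intro v
      rw [Poly.mul_apply]
      constructor
      · intro h
        let F : ℤ := f (fun i => v (Sum.inl i))
        let G : ℤ := g (fun i => v (Sum.inl i))
        refine ⟨fun z => match z with
          | Sum.inl (true, true) => F.toNat
          | Sum.inl (true, false) => (-F).toNat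
          | Sum.inl (false, true) => G.toNat
          | Sum.inl (false, false) => (-G).toNat
          | Sum.inr (true, true) => F.toNat * G.toNat
          | Sum.inr (true, false) => F.toNat * (-G).toNat
          | Sum.inr (false, true) => (-F).toNat * G.toNat
          | Sum.inr (false, false) => (-F).toNat * (-G).toNat, ⟨⟨?_, ?_⟩, ⟨rfl, rfl⟩, rfl, rfl⟩, ?_⟩
        · simp only [F]; omega
        · simp only [G]; omega
        · have h1 : F = (F.toNat : ℤ) - ((-F).toNat : ℤ) := by omega
          have h2 : G = (G.toNat : ℤ) - ((-G).toNat : ℤ) := by omega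
          change F * G + (v (Sum.inr false) : ℤ) = (v (Sum.inr true) : ℤ) at h
          have h3 : F * G = ((F.toNat : ℤ) - ((-F).toNat : ℤ)) * ((G.toNat : ℤ) - ((-G).toNat : ℤ)) := by
            rw [← h1, ← h2]
          simp only
          zify
          linear_combination h - h3
      · rintro ⟨t, ⟨⟨h1, h2⟩, ⟨h3, h4⟩, h5, h6⟩, h7⟩
        have e1 : f (fun i => v (Sum.inl i)) =
          (t (Sum.inl (true, true)) : ℤ) - (t (Sum.inl (true, false)) : ℤ) := by linarith
        have e2 : g (fun i => v (Sum.inl i)) =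
          (t (Sum.inl (false, true)) : ℤ) - (t (Sum.inl (false, false)) : ℤ) := by linarith
        rw [e1, e2]
        rw [← h3, ← h4, ← h5, ← h6] at h7
        zify at h7
        linear_combination h7

theorem UD.dioph {α : Type} {S : (α → ℕ) → Prop} (hS : Dioph {v | S v}) : UD S := by
  obtain ⟨δ, _, p, hp⟩ := Pool.Agent.Helper844.Dio.finite_dummies hS
  refine (UD.exF (κ := δ ⊕ Unit) (P := fun (t : δ ⊕ Unit → ℕ) (v : α → ℕ) =>
    p (Sum.elim v (fun d => t (Sum.inl d))) + (t (Sum.inr ()) : ℤ) = (t (Sum.inr ()) : ℤ)) ?_).congr ?_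
  · refine ((UD.poly p).comp (fun z => match z with
      | Sum.inl (Sum.inl i) => (Sum.inr i : (δ ⊕ Unit) ⊕ α)
      | Sum.inl (Sum.inr d) => Sum.inl (Sum.inl d)
      | Sum.inr _ => Sum.inl (Sum.inr ()))).congr ?_
    intro v
    have : (Sum.elim (fun i => v (Sum.inr i)) (fun d => v (Sum.inl (Sum.inl d))) : α ⊕ δ → ℕ) =
      (fun i => v (match (Sum.inl i : (α ⊕ δ) ⊕ Bool) with
      | Sum.inl (Sum.inl i) => (Sum.inr i : (δ ⊕ Unit) ⊕ α)
      | Sum.inl (Sum.inr d) => Sum.inl (Sum.inl d)
      | Sum.inr _ => Sum.inl (Sum.inr ()))) := by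
      funext z; rcases z with z | z <;> rfl
    rw [this]
  · intro v
    refine (hp v).trans ?_
    constructor
    · rintro ⟨t, ht⟩
      exact ⟨Sum.elim t (fun _ => 0), by simpa using ht⟩
    · rintro ⟨t, ht⟩
      exact ⟨fun d => t (Sum.inl d), by linarith⟩

end Pool.Agent.Run7.h882.OV.LG

namespace Pool.Agent.Run7.h882.OV

open Pool.Agent.Run7.h955.OV LG

theorem t_Log : St_Log := by
  intro p hp
  obtain ⟨κ, _, C, hC⟩ := UD.dioph (α := Unit) (S := fun v => p (v ()))
    (Pool.Agent.Helper844.Dio.dprm hp)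
  classical
  obtain ⟨r, ⟨N⟩⟩ : ∃ r : ℕ, Nonempty (Unit ⊕ κ ≃ Fin r) :=
    ⟨_, ⟨Fintype.equivFin (Unit ⊕ κ)⟩⟩
  have hr : 0 < r := lt_of_le_of_lt (Nat.zero_le _) (N (Sum.inl ())).2
  -- translation of a literal
  let tr : GLit (Unit ⊕ κ) → Lit := fun l => ⟨l.pos, r * l.a, r * l.b, r * l.c, r * l.e + N l.s⟩
  have htr : ∀ (l : GLit (Unit ⊕ κ)) (U : Finset ℕ) (T : Unit ⊕ κ → Finset ℕ),
      (∀ s m, m ∈ T s ↔ r * m + N s ∈ U) → ∀ i j k, (tr l).ok U i j k ↔ l.ok T i j k := by
    intro l U T hT i j k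
    unfold Lit.ok GLit.ok Lit.pt
    rw [hT]
    have : (tr l).a * i + (tr l).b * j + (tr l).c * k + (tr l).e =
        r * (l.a * i + l.b * j + l.c * k + l.e) + N l.s := by
      simp only [tr]
      ring
    rw [this]
  let C' : List (List Lit) := C.map (List.map tr)
  have hC' : ∀ (U : Finset ℕ) (T : Unit ⊕ κ → Finset ℕ),
      (∀ s m, m ∈ T s ↔ r * m + N s ∈ U) → (Sat C' U ↔ GS C T) := by
    intro U T hT
    constructor
    · intro h cl hcl i j k
      obtain ⟨l, hl, hok⟩ := h _ (List.mem_map_of_mem hcl) i j k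
      obtain ⟨l', hl', rfl⟩ := List.mem_map.1 hl
      exact ⟨l', hl', (htr l' U T hT i j k).1 hok⟩
    · intro h cl hcl i j k
      obtain ⟨cl', hcl', rfl⟩ := List.mem_map.1 hcl
      obtain ⟨l, hl, hok⟩ := h _ hcl' i j k
      exact ⟨_, List.mem_map_of_mem hl, (htr l U T hT i j k).2 hok⟩
  refine ⟨[tr ⟨Sum.inl (), false, 1, 0, 0, 0⟩, tr ⟨Sum.inl (), false, 1, 1, 0, 1⟩] :: C', r,
    N (Sum.inl ()), ?_⟩
  intro n
  refine (hC (fun _ => n)).trans ?_
  constructor
  · rintro ⟨T, hT⟩
    let T' : Unit ⊕ κ → Finset ℕ := Sum.elim (fun _ => {n}) T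
    let U : Finset ℕ := Finset.univ.biUnion
      (fun s : Unit ⊕ κ => (T' s).image (fun m => r * m + N s))
    have hU : ∀ s m, m ∈ T' s ↔ r * m + N s ∈ U := by
      intro s m
      simp only [U, Finset.mem_biUnion, Finset.mem_univ, true_and, Finset.mem_image]
      constructor
      · intro h
        exact ⟨s, m, h, rfl⟩
      · rintro ⟨s', m', h, he⟩
        have h1 := congrArg (fun x => x % r) he
        have h2 := congrArg (fun x => x / r) he
        simp only [Nat.mul_add_mod, Nat.mod_eq_of_lt (N s').2, Nat.mod_eq_of_lt (N s).2] at h1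
        simp only [Nat.mul_add_div hr, Nat.div_eq_of_lt (N s').2, Nat.div_eq_of_lt (N s).2,
          add_zero] at h2
        have h3 : s' = s := N.injective (Fin.ext h1)
        rw [← h2, ← h3]
        exact h
    refine ⟨U, ?_, ?_⟩
    · intro cl hcl i j k
      rcases List.mem_cons.1 hcl with h | h
      · subst h
        simp only [List.mem_cons, List.not_mem_nil, or_false, exists_eq_or_imp, exists_eq_left]
        rw [htr _ U T' hU, htr _ U T' hU, ok_false, ok_false]
        simp only [T', Sum.elim_inl, Finset.mem_singleton]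
        omega
      · exact (hC' U T' hU).2 hT cl h i j k
    · refine (hU (Sum.inl ()) n).1 ?_
      simp only [T', Sum.elim_inl, Finset.mem_singleton]
  · rintro ⟨U, hU, hn⟩
    let T' : Unit ⊕ κ → Finset ℕ := fun s => U.preimage (fun m => r * m + N s) (by
      intro x _ y _ h
      have h1 : r * x + N s = r * y + N s := h
      exact Nat.eq_of_mul_eq_mul_left hr (Nat.add_right_cancel h1))
    have hT : ∀ s m, m ∈ T' s ↔ r * m + N s ∈ U := by
      intro s m
      exact Finset.mem_preimage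
    have hn' : n ∈ T' (Sum.inl ()) := (hT _ _).2 hn
    have h1 : ∀ i j : ℕ, i ∉ T' (Sum.inl ()) ∨ i + j + 1 ∉ T' (Sum.inl ()) := by
      intro i j
      have := hU _ List.mem_cons_self i j 0
      simp only [List.mem_cons, List.not_mem_nil, or_false, exists_eq_or_imp,
        exists_eq_left] at this
      rw [htr _ U T' hT, htr _ U T' hT, ok_false, ok_false] at this
      simpa only [one_mul, zero_mul, add_zero] using this
    have h2 : T' (Sum.inl ()) = {n} := by
      ext m
      rw [Finset.mem_singleton]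
      constructor
      · intro hm
        rcases lt_trichotomy m n with h | h | h
        · have := h1 m (n - m - 1)
          rw [show m + (n - m - 1) + 1 = n by omega] at this
          tauto
        · exact h
        · have := h1 n (m - n - 1)
          rw [show n + (m - n - 1) + 1 = m by omega] at this
          tauto
      · rintro rfl
        exact hn'
    refine ⟨fun k => T' (Sum.inr k), ?_⟩
    have h3 : (Sum.elim (fun _ : Unit => ({n} : Finset ℕ)) (fun k => T' (Sum.inr k))) = T' := by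
      funext z
      rcases z with z | z
      · exact h2.symm
      · rfl
    rw [h3]
    exact (hC' U T' hT).1 (fun cl hcl => hU cl (List.mem_cons_of_mem _ hcl))

end Pool.Agent.Run7.h882.OV
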