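import Pool.Agent.Run7.h955.OV.Iface

/-!
# Piece PAR of the project OV (MP_1ebeae_al)

Kummer/Lucas for the prime 2, and the parity of a binomial coefficient as the parity of one
quotient.
-/

set_option autoImplicit false

namespace Pool.Agent.Run7.h882.OV

open Pool.Agent.Run7.h955.OV Finset

theorem lucas2 (n k : ℕ) : Odd (n.choose k) ↔ Odd ((n % 2).choose (k % 2) * (n / 2).choose (k / 2)) := by
  have h := Choose.choose_modEq_choose_mod_mul_choose_div_nat (n := n) (k := k) (p := 2)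
  rw [Nat.odd_iff, Nat.odd_iff, h]

theorem t_Odd : St_Odd := by
  intro V
  induction V using Nat.strong_induction_on with
  | _ V ih =>
    intro M
    rcases Nat.eq_zero_or_pos V with h0 | h0
    · subst h0
      simp
    · have hV : V / 2 < V := Nat.div_lt_self h0 (by norm_num)
      have hlt := ih (V / 2) hV (M / 2)
      rw [lucas2]
      have hand : V &&& M = 0 ↔ (V % 2 = 0 ∨ M % 2 = 0) ∧ (V / 2) &&& (M / 2) = 0 := by
        have h1 : (V &&& M) / 2 = (V / 2) &&& (M / 2) := Nat.and_div_two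
        have h2 : (V &&& M) % 2 = (V % 2) * (M % 2) := by
          have := Nat.and_mod_two_pow (a := V) (b := M) (n := 1)
          rw [pow_one] at this
          rw [this]
          rcases Nat.mod_two_eq_zero_or_one V with hv | hv <;>
          rcases Nat.mod_two_eq_zero_or_one M with hm | hm <;> rw [hv, hm] <;> rfl
        constructor
        · intro h
          rw [h] at h1 h2
          refine ⟨?_, h1.symm⟩
          rcases Nat.mul_eq_zero.mp h2.symm with h3 | h3
          · exact Or.inl h3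
          · exact Or.inr h3
        · rintro ⟨h3, h4⟩
          have h5 : (V &&& M) % 2 = 0 := by
            rw [h2]
            rcases h3 with h3 | h3 <;> rw [h3] <;> simp
          rw [h4] at h1
          omega
      rw [hand]
      rcases Nat.mod_two_eq_zero_or_one V with hv | hv <;>
        rcases Nat.mod_two_eq_zero_or_one M with hm | hm
      · have e1 : (V + M) % 2 = 0 := by omega
        have e2 : (V + M) / 2 = V / 2 + M / 2 := by omega
        rw [e1, e2, hm, hv]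
        simp only [Nat.choose_self, one_mul, true_or, true_and]
        exact hlt
      · have e1 : (V + M) % 2 = 1 := by omega
        have e2 : (V + M) / 2 = V / 2 + M / 2 := by omega
        rw [e1, e2, hm, hv]
        simp only [Nat.choose_self, one_mul, true_or, true_and]
        exact hlt
      · have e1 : (V + M) % 2 = 1 := by omega
        have e2 : (V + M) / 2 = V / 2 + M / 2 := by omega
        rw [e1, e2, hm, hv]
        simp only [Nat.choose_zero_right, one_mul, or_true, true_and]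
        exact hlt
      · have e1 : (V + M) % 2 = 0 := by omega
        rw [e1, hm, hv]
        simp

theorem low_lt (b : ℕ) (f : ℕ → ℕ) (hf : ∀ i, f i < b) (n : ℕ) :
    ∑ i ∈ range n, b ^ i * f i < b ^ n := by
  induction n with
  | zero => simp
  | succ n ih =>
    rw [sum_range_succ, pow_succ]
    have h := hf n
    have h1 : b ^ n * f n ≤ b ^ n * (b - 1) := Nat.mul_le_mul_left _ (by omega)
    have h2 : b ^ n * (b - 1) + b ^ n = b ^ n * b := by
      obtain ⟨c, rfl⟩ : ∃ c, b = c + 1 := ⟨b - 1, by omega⟩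
      simp only [Nat.add_sub_cancel]
      ring
    omega

theorem t_Quot : St_Quot := by
  intro A B z e hBA hAz hze
  have hz : 1 ≤ z := by omega
  -- the expansion of `θ ^ A`
  obtain ⟨b, hb⟩ : ∃ b, b = 2 ^ z := ⟨_, rfl⟩
  have hch : ∀ i, A.choose i < b := by
    intro i
    rw [hb]
    calc A.choose i ≤ 2 ^ A := Nat.choose_le_two_pow A i
      _ < 2 ^ z := Nat.pow_lt_pow_right (by norm_num) hAz
  obtain ⟨lo, hlo⟩ : ∃ lo, lo = ∑ i ∈ range B, b ^ i * A.choose i := ⟨_, rfl⟩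
  have hlolt : lo < b ^ B := by rw [hlo]; exact low_lt b _ hch B
  obtain ⟨hi, hθ⟩ : ∃ hi, (b + 1) ^ A = lo + b ^ B * (A.choose B + b * hi) := by
    refine ⟨∑ i ∈ range (A - B), b ^ i * A.choose (B + 1 + i), ?_⟩
    rw [add_pow]
    have e1 : A + 1 = B + (1 + (A - B)) := by omega
    rw [e1, sum_range_add, sum_range_add, sum_range_one, hlo]
    simp only [one_pow, mul_one, add_zero]
    have e2 : ∑ x ∈ range (A - B), b ^ (B + (1 + x)) * (A.choose (B + (1 + x)) : ℕ) =
        b ^ B * (b * ∑ i ∈ range (A - B), b ^ i * A.choose (B + 1 + i)) := by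
      rw [mul_sum, mul_sum]
      refine sum_congr rfl (fun i _ => ?_)
      rw [← add_assoc B 1 i, pow_add, pow_succ]
      ring
    simp only [Nat.cast_id] at *
    rw [e2]
    ring
  have hbB : b ^ B = 2 ^ (z * B) := by rw [hb, ← pow_mul]
  have hzB : z * B ≤ (z + 1) * (A + 1) := by
    calc z * B ≤ (z + 1) * B := Nat.mul_le_mul_right _ (by omega)
      _ ≤ (z + 1) * (A + 1) := Nat.mul_le_mul_left _ (by omega)
  obtain ⟨r, hr⟩ : ∃ r, e = z * B + (r + 1) := ⟨e - z * B - 1, by omega⟩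
  -- integers
  obtain ⟨D, hD⟩ : ∃ D : ℤ, D = 2 ^ e - 2 ^ z - 1 := ⟨_, rfl⟩
  obtain ⟨θ, hθd⟩ : ∃ θ : ℤ, θ = 2 ^ z + 1 := ⟨_, rfl⟩
  have hbz : (b : ℤ) = 2 ^ z := by rw [hb]; push_cast; rfl
  have hgeom := Commute.geom_sum₂_mul (Commute.all θ ((2 : ℤ) ^ e)) (A + 1)
  obtain ⟨S', hS'⟩ : ∃ S' : ℤ, S' = ∑ i ∈ range A, θ ^ i * ((2 : ℤ) ^ e) ^ (A - 1 - i) := ⟨_, rfl⟩
  have hS : ∑ i ∈ range (A + 1), θ ^ i * ((2 : ℤ) ^ e) ^ (A + 1 - 1 - i) =
      θ ^ A + 2 ^ e * S' := by
    rw [sum_range_succ, hS', mul_sum]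
    have e1 : A + 1 - 1 - A = 0 := by omega
    rw [e1, pow_zero, mul_one, add_comm]
    congr 1
    refine sum_congr rfl (fun i hi => ?_)
    rw [mem_range] at hi
    have e2 : A + 1 - 1 - i = (A - 1 - i) + 1 := by omega
    rw [e2, pow_succ]
    ring
  rw [hS] at hgeom
  obtain ⟨Q, hQ⟩ : ∃ Q : ℤ, Q = A.choose B + b * hi + 2 ^ (r + 1) * S' := ⟨_, rfl⟩
  have hθA : θ ^ A = lo + 2 ^ (z * B) * (A.choose B + b * hi) := by
    have h1 : ((b + 1 : ℕ) : ℤ) ^ A = ((lo + b ^ B * (A.choose B + b * hi) : ℕ) : ℤ) := by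
      exact_mod_cast congrArg (fun n : ℕ => (n : ℤ)) hθ
    rw [hbB] at h1
    push_cast at h1
    rw [hθd, ← hbz]
    exact h1
  have hpe : (2 : ℤ) ^ e = 2 ^ (z * B) * 2 ^ (r + 1) := by rw [hr, pow_add]
  have hSQ : θ ^ A + 2 ^ e * S' = lo + 2 ^ (z * B) * Q := by
    rw [hQ, hθA, hpe]
    ring
  rw [hSQ] at hgeom
  -- bounds
  have hθ0 : 0 ≤ θ := by rw [hθd]; positivity
  have hθ1 : θ ^ (A + 1) < D := by
    have h1 : θ ≤ 2 ^ (z + 1) := by
      rw [hθd, pow_succ]
      have : (1 : ℤ) ≤ 2 ^ z := one_le_pow₀ (by norm_num)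
      linarith
    have h2 : θ ^ (A + 1) ≤ 2 ^ ((z + 1) * (A + 1)) := by
      rw [pow_mul]
      exact pow_le_pow_left₀ hθ0 h1 _
    have h3 : (2 : ℤ) ^ ((z + 1) * (A + 1)) * 4 ≤ 2 ^ e := by
      have : (2 : ℤ) ^ ((z + 1) * (A + 1) + 2) ≤ 2 ^ e :=
        pow_le_pow_right₀ (by norm_num) (by omega)
      rw [pow_add] at this
      linarith
    have h4 : θ ≤ 2 ^ ((z + 1) * (A + 1)) :=
      h1.trans (pow_le_pow_right₀ (by norm_num) (Nat.le_mul_of_pos_right _ (by omega)))
    have h5 : (0 : ℤ) < 2 ^ ((z + 1) * (A + 1)) := by positivity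
    rw [hD]
    have : (2 : ℤ) ^ e - 2 ^ z - 1 = 2 ^ e - θ := by rw [hθd]; ring
    rw [this]
    linarith
  have hDpos : 0 < D := lt_of_le_of_lt (pow_nonneg hθ0 _) hθ1
  obtain ⟨N, hN⟩ : ∃ N : ℤ, N = 2 ^ (e * (A + 1) - z * B) := ⟨_, rfl⟩
  have hNe : N * 2 ^ (z * B) = (2 ^ e) ^ (A + 1) := by
    rw [hN, ← pow_add, ← pow_mul]
    congr 1
    have : z * B ≤ e * (A + 1) := by
      calc z * B ≤ e := by omega
        _ ≤ e * (A + 1) := Nat.le_mul_of_pos_right _ (by omega)
    omega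
  have hkey : (N - D * Q) * 2 ^ (z * B) = D * lo + θ ^ (A + 1) := by
    have h1 : D = 2 ^ e - θ := by rw [hD, hθd]; ring
    have h2 : ((lo : ℤ) + 2 ^ (z * B) * Q) * (θ - 2 ^ e) = θ ^ (A + 1) - (2 ^ e) ^ (A + 1) := hgeom
    rw [← hNe] at h2
    rw [h1]
    linear_combination h2
  have hp : (0 : ℤ) < 2 ^ (z * B) := by positivity
  have hlo0 : (0 : ℤ) ≤ lo := Int.natCast_nonneg _
  have hlo1 : (lo : ℤ) + 1 ≤ 2 ^ (z * B) := by
    rw [hbB] at hlolt
    have : ((lo + 1 : ℕ) : ℤ) ≤ ((2 ^ (z * B) : ℕ) : ℤ) := by exact_mod_cast hlolt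
    push_cast at this
    exact this
  have hq0 : 0 ≤ N - D * Q := by
    by_contra hcon
    push Not at hcon
    have h1 : (N - D * Q) * 2 ^ (z * B) < 0 := mul_neg_of_neg_of_pos hcon hp
    have h2 : 0 ≤ D * lo := mul_nonneg hDpos.le hlo0
    have h3 : 0 ≤ θ ^ (A + 1) := pow_nonneg hθ0 _
    linarith
  have hq1 : N - D * Q < D := by
    by_contra hcon
    push Not at hcon
    have h1 : D * 2 ^ (z * B) ≤ (N - D * Q) * 2 ^ (z * B) := mul_le_mul_of_nonneg_right hcon hp.le
    have h2 : D * (lo + 1) ≤ D * 2 ^ (z * B) := mul_le_mul_of_nonneg_left hlo1 hDpos.le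
    have h3 : D * ((lo : ℤ) + 1) = D * lo + D := by ring
    linarith
  rw [← hN, ← hD]
  have hQodd : Odd Q ↔ Odd (A.choose B) := by
    have h1 : Q = (A.choose B : ℤ) + 2 * (2 ^ (z - 1) * hi + 2 ^ r * S') := by
      rw [hQ, hbz]
      have : (2 : ℤ) ^ z = 2 * 2 ^ (z - 1) := by
        rw [← pow_succ']
        congr 1
        omega
      rw [this, pow_succ]
      ring
    have h0 : Odd (A.choose B) ↔ Odd ((A.choose B : ℕ) : ℤ) := (Int.odd_coe_nat _).symm
    rw [h1, h0]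
    constructor
    · intro h
      rcases h with ⟨k, hk⟩
      exact ⟨k - (2 ^ (z - 1) * hi + 2 ^ r * S'), by linarith⟩
    · rintro ⟨k, hk⟩
      exact ⟨k + (2 ^ (z - 1) * hi + 2 ^ r * S'), by linarith⟩
  rw [← hQodd]
  constructor
  · rintro ⟨w, h1, h2⟩
    have hw : 2 * w + 1 = Q := by
      have h3 : D * (Q - (2 * w + 1)) < D * 1 := by linarith
      have h4 : D * (-1) < D * (Q - (2 * w + 1)) := by linarith
      have h5 : Q - (2 * w + 1) < 1 := lt_of_mul_lt_mul_left h3 hDpos.le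
      have h6 : -1 < Q - (2 * w + 1) := lt_of_mul_lt_mul_left h4 hDpos.le
      omega
    exact ⟨w, hw.symm⟩
  · rintro ⟨w, hw⟩
    refine ⟨w, ?_, ?_⟩
    · rw [← hw, mul_comm]; exact hq0
    · rw [← hw, mul_comm Q D]; exact hq1

end Pool.Agent.Run7.h882.OV
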